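import Pool.Agent.X243.HFree.Abs

/-!
# Sample complexity of testing `H`-freeness of edge distributions

We answer Q1 of `MP_c13ef9_lc` in the positive, with `c = 1 / e(H)`, for every finite simple graph
`H` with at least two edges (connected or not).
-/

open Finset

namespace Pool.Agent.Results.MP_c13ef9_lc.SampleComplexity

/-- `μ` is a distribution on the finite set `Λ`. -/
structure IsDist {Λ : Type*} [Fintype Λ] (μ : Λ → ℝ) : Prop where
  nonneg : ∀ a, 0 ≤ μ a
  total : ∑ a, μ a = 1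

/-- The probability that the randomized algorithm `A` (`A s` is the probability of acceptance on
the labelled sample sequence `s`) accepts, when it receives `m` independent samples from `μ`
labelled by `f`. -/
noncomputable def acceptProb {Λ : Type*} [Fintype Λ] {m : ℕ} (A : (Fin m → Λ × Bool) → ℝ)
    (μ : Λ → ℝ) (f : Λ → Bool) : ℝ :=
  ∑ x : Fin m → Λ, (∏ i, μ (x i)) * A (fun i => (x i, f (x i)))

/-- The probability that `f x ≠ g x` for `x` drawn from `μ`. -/
noncomputable def disagree {Λ : Type*} [Fintype Λ] (μ : Λ → ℝ) (f g : Λ → Bool) : ℝ :=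
  ∑ a, if f a ≠ g a then μ a else 0

/-- The randomized algorithm `A` with `m` labelled samples is a distribution-free tester of `𝓗`
with proximity parameter `ε`. -/
structure IsTester {Λ : Type*} [Fintype Λ] (𝓗 : Set (Λ → Bool)) (ε : ℝ) (m : ℕ)
    (A : (Fin m → Λ × Bool) → ℝ) : Prop where
  prob : ∀ s, 0 ≤ A s ∧ A s ≤ 1
  complete : ∀ μ : Λ → ℝ, IsDist μ → ∀ f ∈ 𝓗, 2 / 3 ≤ acceptProb A μ f
  sound : ∀ μ : Λ → ℝ, IsDist μ → ∀ f : Λ → Bool, (∀ g ∈ 𝓗, ε ≤ disagree μ f g) →
    2 / 3 ≤ 1 - acceptProb A μ f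

/-- `sam(𝓗, ε)`: the least positive number of samples for which a tester exists. -/
noncomputable def sam {Λ : Type*} [Fintype Λ] (𝓗 : Set (Λ → Bool)) (ε : ℝ) : ℕ :=
  sInf {m | 0 < m ∧ ∃ A : (Fin m → Λ × Bool) → ℝ, IsTester 𝓗 ε m A}

/-- The domain: unordered pairs of distinct elements of `{1, …, n}`. -/
abbrev Pair (n : ℕ) : Type := {p : Sym2 (Fin n) // ¬ p.IsDiag}

/-- The graph whose edges are the pairs with label `true`. -/
def toGraph {n : ℕ} (f : Pair n → Bool) : SimpleGraph (Fin n) where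
  Adj u v := ∃ h : ¬ s(u, v).IsDiag, f ⟨s(u, v), h⟩ = true
  symm := ⟨by
    intro u v h
    rwa [Sym2.eq_swap]⟩
  loopless := ⟨by
    rintro u ⟨h, -⟩
    exact h (by simp)⟩

/-- The functions whose graph has no (not necessarily induced) subgraph isomorphic to `H`. -/
def HFree {V : Type*} (H : SimpleGraph V) (n : ℕ) : Set (Pair n → Bool) :=
  {f | H.Free (toGraph f)}

/-! ## From copies of `H` to a uniform set system -/

/-- the graph of a finite set of pairs -/
def gr {n : ℕ} (K : Finset (Pair n)) : SimpleGraph (Fin n) := toGraph (fun a => decide (a ∈ K))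

lemma gr_adj {n : ℕ} (K : Finset (Pair n)) (u v : Fin n) :
    (gr K).Adj u v ↔ ∃ h : ¬ s(u, v).IsDiag, (⟨s(u, v), h⟩ : Pair n) ∈ K := by
  unfold gr toGraph
  simp

lemma gr_mono {n : ℕ} {K L : Finset (Pair n)} (h : K ⊆ L) : gr K ≤ gr L := by
  intro u v huv
  rw [gr_adj] at huv ⊢
  obtain ⟨h1, h2⟩ := huv
  exact ⟨h1, h h2⟩

lemma gr_filter {n : ℕ} (f : Pair n → Bool) : gr (univ.filter (fun a => f a = true)) = toGraph f := by
  unfold gr
  congr 1
  funext a
  simp

/-- edge sets of copies of `H` -/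
def copies {V : Type*} (H : SimpleGraph V) (e n : ℕ) : Set (Finset (Pair n)) :=
  {K | K.card = e ∧ H.IsContained (gr K)}

lemma exists_copy {V : Type*} [Fintype V] (H : SimpleGraph V) {n : ℕ} (S : Finset (Pair n))
    (h : H.IsContained (gr S)) : ∃ K ∈ copies H H.edgeSet.ncard n, K ⊆ S := by
  classical
  obtain ⟨φ⟩ := h
  have hmem : ∀ p : H.edgeSet, ∃ a : Pair n, a ∈ S ∧ (a : Sym2 (Fin n)) = Sym2.map φ (p : Sym2 V) := by
    rintro ⟨p, hp⟩
    induction p using Sym2.ind with
    | _ u v =>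
      have h1 : (gr S).Adj (φ u) (φ v) := φ.toHom.map_adj hp
      rw [gr_adj] at h1
      obtain ⟨h2, h3⟩ := h1
      exact ⟨_, h3, rfl⟩
  choose ψ hψ1 hψ2 using hmem
  have hinj : Function.Injective ψ := by
    intro p q hpq
    have h1 : Sym2.map φ (p : Sym2 V) = Sym2.map φ (q : Sym2 V) := by
      rw [← hψ2, ← hψ2, hpq]
    exact Subtype.ext (Sym2.map.injective φ.injective h1)
  refine ⟨univ.image ψ, ⟨?_, ?_⟩, ?_⟩
  · rw [card_image_of_injective _ hinj, card_univ, ← Nat.card_eq_fintype_card]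
    rfl
  · refine ⟨⟨⟨φ, ?_⟩, φ.injective⟩⟩
    intro u v huv
    rw [gr_adj]
    have h1 : (gr S).Adj (φ u) (φ v) := φ.toHom.map_adj huv
    rw [gr_adj] at h1
    obtain ⟨h2, -⟩ := h1
    refine ⟨h2, ?_⟩
    rw [mem_image]
    refine ⟨⟨s(u, v), huv⟩, mem_univ _, ?_⟩
    apply Subtype.ext
    rw [hψ2]
    rfl
  · intro a ha
    obtain ⟨p, -, rfl⟩ := mem_image.1 ha
    exact hψ1 p

lemma free_iff {V : Type*} [Fintype V] (H : SimpleGraph V) {n : ℕ} (S : Finset (Pair n)) :
    Pool.Agent.X243.HFree.Free (copies H H.edgeSet.ncard n) S ↔ H.Free (gr S) := by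
  constructor
  · intro h hc
    obtain ⟨K, hK, hKS⟩ := exists_copy H S hc
    exact h K hK hKS
  · intro h K hK hKS
    exact h (hK.2.mono_right (gr_mono hKS))

lemma card_le_of_free {V : Type*} (H : SimpleGraph V) {n : ℕ} (S : Finset (Pair n))
    (h : H.Free (gr S)) : S.card ≤ SimpleGraph.extremalNumber n H := by
  classical
  have h1 := SimpleGraph.card_edgeFinset_le_extremalNumber h
  rw [Fintype.card_fin] at h1
  refine le_trans (le_of_eq ?_) h1
  rw [← card_map (Function.Embedding.subtype _)]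
  congr 1
  ext p
  rw [mem_map, SimpleGraph.mem_edgeFinset]
  induction p using Sym2.ind with
  | _ u v =>
    rw [SimpleGraph.mem_edgeSet, gr_adj]
    constructor
    · rintro ⟨a, ha, h2⟩
      have h3 : (a : Sym2 (Fin n)) = s(u, v) := h2
      have h4 : ¬ s(u, v).IsDiag := h3 ▸ a.2
      refine ⟨h4, ?_⟩
      have : (⟨s(u, v), h4⟩ : Pair n) = a := Subtype.ext h3.symm
      rwa [this]
    · rintro ⟨h2, h3⟩
      exact ⟨_, h3, rfl⟩

open Classical in
/-- the tester: reject when all edges of a copy of `H` have been seen -/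
noncomputable def tester {V : Type*} (H : SimpleGraph V) (n m : ℕ) :
    (Fin m → Pair n × Bool) → ℝ :=
  fun s => if ∃ K ∈ copies H H.edgeSet.ncard n, ∀ a ∈ K, ∃ i, s i = (a, true) then 0 else 1

open Classical in
lemma acceptProb_tester {V : Type*} (H : SimpleGraph V) (n m : ℕ) {μ : Pair n → ℝ}
    (hμ : IsDist μ) (f : Pair n → Bool) :
    acceptProb (tester H n m) μ f = 1 - Pool.Agent.X243.HFree.hp (copies H H.edgeSet.ncard n)
      (univ.filter (fun a => f a = true)) μ (Fin m) := by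
  have hhp : Pool.Agent.X243.HFree.hp (copies H H.edgeSet.ncard n)
      (univ.filter (fun a => f a = true)) μ (Fin m) =
      ∑ x : Fin m → Pair n, Pool.Agent.X243.HFree.wt μ x *
        (if Pool.Agent.X243.HFree.Hit (copies H H.edgeSet.ncard n)
          (univ.filter (fun a => f a = true)) x then 1 else 0) := rfl
  rw [hhp]
  unfold acceptProb
  rw [eq_sub_iff_add_eq, ← sum_add_distrib]
  refine Eq.trans ?_ (Pool.Agent.X243.HFree.wt_total (ι := Fin m) hμ.total)
  apply sum_congr rfl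
  intro x _
  have h1 : (∃ K ∈ copies H H.edgeSet.ncard n, ∀ a ∈ K, ∃ i, (x i, f (x i)) = (a, true)) ↔
      Pool.Agent.X243.HFree.Hit (copies H H.edgeSet.ncard n)
        (univ.filter (fun a => f a = true)) x := by
    unfold Pool.Agent.X243.HFree.Hit
    constructor
    · rintro ⟨K, hK, h⟩
      refine ⟨K, hK, ?_, ?_⟩
      · intro a ha
        obtain ⟨i, hi⟩ := h a ha
        rw [Prod.mk.injEq] at hi
        rw [mem_filter]
        exact ⟨mem_univ _, hi.1 ▸ hi.2⟩
      · intro a ha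
        obtain ⟨i, hi⟩ := h a ha
        rw [Prod.mk.injEq] at hi
        exact ⟨i, hi.1⟩
    · rintro ⟨K, hK, hKE, h⟩
      refine ⟨K, hK, ?_⟩
      intro a ha
      obtain ⟨i, hi⟩ := h a ha
      refine ⟨i, ?_⟩
      rw [Prod.mk.injEq]
      refine ⟨hi, ?_⟩
      rw [hi]
      exact (mem_filter.1 (hKE ha)).2
  unfold tester Pool.Agent.X243.HFree.wt
  simp only [h1]
  split_ifs <;> ring

lemma isTester {V : Type*} [Fintype V] (H : SimpleGraph V) (n m : ℕ) {ε : ℝ}
    (h : ∀ μ : Pair n → ℝ, IsDist μ → ∀ E : Finset (Pair n),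
      (∀ g ⊆ E, Pool.Agent.X243.HFree.Free (copies H H.edgeSet.ncard n) g →
        ε ≤ ∑ a ∈ E \ g, μ a) →
      2 / 3 ≤ Pool.Agent.X243.HFree.hp (copies H H.edgeSet.ncard n) E μ (Fin m)) :
    IsTester (HFree H n) ε m (tester H n m) where
  prob := by
    intro s
    unfold tester
    split_ifs <;> norm_num
  complete := by
    intro μ hμ f hf
    rw [acceptProb_tester H n m hμ f]
    have h0 : Pool.Agent.X243.HFree.hp (copies H H.edgeSet.ncard n)
        (univ.filter (fun a => f a = true)) μ (Fin m) = 0 := by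
      unfold Pool.Agent.X243.HFree.hp
      apply sum_eq_zero
      intro x _
      rw [if_neg, mul_zero]
      rintro ⟨K, hK, hKE, -⟩
      have h1 : H.Free (toGraph f) := hf
      rw [← gr_filter, ← free_iff] at h1
      exact h1 K hK hKE
    rw [h0]
    norm_num
  sound := by
    intro μ hμ f hf
    rw [acceptProb_tester H n m hμ f]
    have h1 := h μ hμ (univ.filter (fun a => f a = true)) (by
      intro g hg hfree
      rw [free_iff] at hfree
      refine (hf (fun a => decide (a ∈ g)) hfree).trans (le_of_eq ?_)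
      unfold disagree
      rw [← sum_filter]
      apply sum_congr _ (fun _ _ => rfl)
      ext a
      rw [mem_filter, mem_sdiff, mem_filter]
      constructor
      · rintro ⟨-, h2⟩
        by_cases h3 : a ∈ g
        · have h4 := (mem_filter.1 (hg h3)).2
          rw [h4] at h2
          simp [h3] at h2
        · refine ⟨⟨mem_univ _, ?_⟩, h3⟩
          simpa [h3] using h2
      · rintro ⟨⟨-, h2⟩, h3⟩
        refine ⟨mem_univ _, ?_⟩
        rw [h2]
        simp [h3])
    linarith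

/-- A positive answer to Q1: for every finite simple graph `H` with at least two edges there is a
constant `C` such that `sam(G^{H-free}_n, ε) ≤ (C / ε) ex(n, H)^(1 - 1 / e(H))` for all
`ε ∈ (0, 1)` and all `n ≥ 2`. -/
theorem result {V : Type*} [Fintype V] (H : SimpleGraph V) (hH : 2 ≤ H.edgeSet.ncard) :
    ∃ C : ℝ, ∀ ε : ℝ, 0 < ε → ε < 1 → ∀ n : ℕ, 2 ≤ n →
      0 < sam (HFree H n) ε ∧
      (sam (HFree H n) ε : ℝ) ≤ C / ε *
        (SimpleGraph.extremalNumber n H : ℝ) ^ (1 - 1 / (H.edgeSet.ncard : ℝ)) := by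
  set e : ℕ := H.edgeSet.ncard with he
  have heR : (2 : ℝ) ≤ e := by exact_mod_cast hH
  refine ⟨(576 * e + 1) * (1 + 8 * e), fun ε hε0 hε1 n hn => ?_⟩
  set X0 : ℕ := SimpleGraph.extremalNumber n H with hX0
  have hX0pos : 1 ≤ X0 := by
    let a : Pair n := ⟨s(⟨0, by omega⟩, ⟨1, by omega⟩), by simp⟩
    have h1 : H.Free (gr {a}) := by
      rw [← free_iff]
      intro K hK hs
      have h2 := card_le_card hs
      rw [hK.1, card_singleton] at h2
      omega
    have := card_le_of_free H {a} h1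
    rwa [card_singleton] at this
  set X : ℕ := X0 + 8 * e with hX
  have hXfree : ∀ S : Finset (Pair n),
      Pool.Agent.X243.HFree.Free (copies H e n) S → S.card ≤ X := by
    intro S hS
    have := card_le_of_free H S ((free_iff H S).1 hS)
    omega
  have hXR : (X : ℝ) = X0 + 8 * e := by
    rw [hX]
    push_cast
    ring
  have hX0R : (1 : ℝ) ≤ X0 := by exact_mod_cast hX0pos
  have hXpos : (0 : ℝ) < X := by rw [hXR]; linarith
  have hX1 : (1 : ℝ) ≤ X := by rw [hXR]; linarith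
  set N : ℕ := ⌈8 * (X : ℝ) / ε⌉₊ with hN
  have hNge : 8 * (X : ℝ) / ε ≤ N := Nat.le_ceil _
  have hNle : (N : ℝ) ≤ 8 * X / ε + 1 := (Nat.ceil_lt_add_one (by positivity)).le
  have hNpos : (0 : ℝ) < N := lt_of_lt_of_le (by positivity) hNge
  set r : ℝ := (8 * e / X) ^ (1 / (e : ℝ)) with hr
  have hbase : (0 : ℝ) < 8 * e / X := by positivity
  have hrpos : 0 < r := Real.rpow_pos_of_pos hbase _
  have hr1 : r ≤ 1 := by
    apply Real.rpow_le_one hbase.le
    · rw [div_le_one hXpos, hXR]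
      linarith
    · positivity
  have hre : r ^ e = 8 * e / X := by
    rw [hr, ← Real.rpow_natCast, ← Real.rpow_mul hbase.le, one_div, inv_mul_cancel₀ (by positivity),
      Real.rpow_one]
  set s : ℕ := ⌈8 * N * r⌉₊ with hs
  have hs0 : 0 < s := Nat.ceil_pos.2 (by positivity)
  have hsle : s ≤ 8 * N := by
    rw [hs]
    apply Nat.ceil_le.2
    push_cast
    nlinarith
  have hsge : r ≤ (s : ℝ) / (8 * N) := by
    rw [le_div_iff₀ (by positivity)]
    have : 8 * N * r ≤ (s : ℝ) := Nat.le_ceil _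
    linarith
  have hq : 8 * (e : ℝ) ≤ X * ((s : ℝ) / (8 * N)) ^ e := by
    have h1 : r ^ e ≤ ((s : ℝ) / (8 * N)) ^ e := pow_le_pow_left₀ hrpos.le hsge e
    rw [hre] at h1
    calc 8 * (e : ℝ) = X * (8 * e / X) := by field_simp
      _ ≤ _ := mul_le_mul_of_nonneg_left h1 hXpos.le
  have htest : IsTester (HFree H n) ε s (tester H n s) := by
    apply isTester
    intro μ hμ E hfar
    exact Pool.Agent.X243.HFree.hit_prob (e := e) (N := N) (by omega) (fun K hK => hK.1)
      (X := X) (by omega) hXfree hμ.nonneg hμ.total hε0 hε1.le hfar hNge hs0 hsle hq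
  have hmem : s ∈ {m | 0 < m ∧ ∃ A : (Fin m → Pair n × Bool) → ℝ, IsTester (HFree H n) ε m A} :=
    ⟨hs0, _, htest⟩
  refine ⟨(Nat.sInf_mem ⟨s, hmem⟩).1, ?_⟩
  have hsam : (sam (HFree H n) ε : ℝ) ≤ s := by exact_mod_cast Nat.sInf_le hmem
  refine hsam.trans ?_
  have h1 : (s : ℝ) ≤ 8 * N * r + 1 := (Nat.ceil_lt_add_one (by positivity)).le
  have h2 : (N : ℝ) ≤ 9 * X / ε := by
    refine hNle.trans ?_
    have h3 : 1 ≤ X / ε := by
      rw [le_div_iff₀ hε0]
      linarith
    have h4 : 9 * (X : ℝ) / ε = 8 * X / ε + X / ε := by ring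
    rw [h4]
    linarith
  set α : ℝ := 1 - 1 / (e : ℝ) with hα
  have hα0 : 0 ≤ α := by
    rw [hα, sub_nonneg, div_le_one (by linarith)]
    linarith
  have hα1 : α ≤ 1 := by
    rw [hα]
    have : 0 ≤ 1 / (e : ℝ) := by positivity
    linarith
  have hrX : X * r ≤ 8 * e * (X : ℝ) ^ α := by
    have h5 : r = (8 * e) ^ (1 / (e : ℝ)) / (X : ℝ) ^ (1 / (e : ℝ)) :=
      Real.div_rpow (by positivity) hXpos.le _
    have h6 : (8 * (e : ℝ)) ^ (1 / (e : ℝ)) ≤ 8 * e := by
      calc (8 * (e : ℝ)) ^ (1 / (e : ℝ)) ≤ (8 * (e : ℝ)) ^ (1 : ℝ) := by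
            apply Real.rpow_le_rpow_of_exponent_le (by linarith)
            rw [div_le_one (by linarith)]
            linarith
        _ = 8 * e := Real.rpow_one _
    have h7 : (X : ℝ) ^ α = X / (X : ℝ) ^ (1 / (e : ℝ)) := by
      rw [hα, Real.rpow_sub hXpos, Real.rpow_one]
    rw [h5, h7]
    have h8 : 0 < (X : ℝ) ^ (1 / (e : ℝ)) := Real.rpow_pos_of_pos hXpos _
    rw [mul_div_assoc', mul_div_assoc', div_le_div_iff_of_pos_right h8]
    nlinarith
  have hXα1 : 1 ≤ (X : ℝ) ^ α := Real.one_le_rpow hX1 hα0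
  have hXα : (X : ℝ) ^ α ≤ (1 + 8 * e) * (X0 : ℝ) ^ α := by
    have h9 : (X : ℝ) ≤ (1 + 8 * e) * X0 := by
      rw [hXR]
      nlinarith
    calc (X : ℝ) ^ α ≤ ((1 + 8 * e) * X0) ^ α := Real.rpow_le_rpow hXpos.le h9 hα0
      _ = (1 + 8 * e) ^ α * (X0 : ℝ) ^ α := Real.mul_rpow (by positivity) (by positivity)
      _ ≤ (1 + 8 * (e : ℝ)) ^ (1 : ℝ) * (X0 : ℝ) ^ α := by
          apply mul_le_mul_of_nonneg_right _ (by positivity)
          exact Real.rpow_le_rpow_of_exponent_le (by linarith) hα1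
      _ = _ := by rw [Real.rpow_one]
  calc (s : ℝ) ≤ 8 * N * r + 1 := h1
    _ ≤ 8 * (9 * X / ε) * r + 1 := by nlinarith
    _ = 72 * (X * r) / ε + 1 := by ring
    _ ≤ 72 * (8 * e * (X : ℝ) ^ α) / ε + (X : ℝ) ^ α / ε := by
        apply add_le_add
        · apply div_le_div_of_nonneg_right _ hε0.le
          linarith
        · rw [le_div_iff₀ hε0]
          linarith
    _ = (576 * e + 1) / ε * (X : ℝ) ^ α := by ring
    _ ≤ (576 * e + 1) / ε * ((1 + 8 * e) * (X0 : ℝ) ^ α) :=
        mul_le_mul_of_nonneg_left hXα (by positivity)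
    _ = _ := by ring

end Pool.Agent.Results.MP_c13ef9_lc.SampleComplexity
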